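import Mathlib

/-!
# DW/RDW: conics and intervals near a real point, the local lemma
-/

set_option autoImplicit false

namespace Pool.Agent.N832.DW

open Finset Filter Topology

/-- the sign of the last variable -/
def sg (l : Fin 3) : ℝ := if l = 2 then -1 else 1

lemma fin3_ne : ∀ l : Fin 3, l + 1 ≠ l := by decide

lemma sg_ne (l : Fin 3) : sg l ≠ 0 := by
  unfold sg; split_ifs <;> norm_num

/-- a solution moves with the coefficients, if some product is not zero -/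
lemma conic1 {b0 z0 : Fin 3 → ℝ} (h : ∑ l, b0 l * z0 l ^ 2 = 0) {l : Fin 3} (hb : b0 l ≠ 0)
    (hz : z0 l ≠ 0) {ε : ℝ} (hε : 0 < ε) :
    ∀ᶠ b in 𝓝 b0, ∃ z' : Fin 3 → ℝ, ∑ l, b l * z' l ^ 2 = 0 ∧ ∀ j, |z' j - z0 j| < ε := by
  obtain ⟨ρ, hρ⟩ : ∃ ρ : (Fin 3 → ℝ) → ℝ, ρ = fun b =>
    -(∑ m ∈ univ.erase l, b m * z0 m ^ 2) / (b l * z0 l ^ 2) := ⟨_, rfl⟩
  have hden : b0 l * z0 l ^ 2 ≠ 0 := mul_ne_zero hb (pow_ne_zero _ hz)
  have hc : ContinuousAt ρ b0 := by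
    rw [hρ]
    have c1 : Continuous fun b : Fin 3 → ℝ => -(∑ m ∈ univ.erase l, b m * z0 m ^ 2) :=
      (continuous_finsetSum _ fun m _ => (continuous_apply m).mul continuous_const).neg
    have c2 : Continuous fun b : Fin 3 → ℝ => b l * z0 l ^ 2 :=
      (continuous_apply l).mul continuous_const
    exact ContinuousAt.div c1.continuousAt c2.continuousAt hden
  have h1 : ρ b0 = 1 := by
    have h2 := Finset.add_sum_erase univ (fun m => b0 m * z0 m ^ 2) (mem_univ l)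
    rw [h] at h2
    rw [hρ]
    simp only
    rw [div_eq_one_iff_eq hden]
    linarith
  have hc2 : ContinuousAt (fun b => z0 l * √(ρ b) - z0 l) b0 :=
    (continuousAt_const.mul (Real.continuous_sqrt.continuousAt.comp hc)).sub continuousAt_const
  have ev1 : ∀ᶠ b in 𝓝 b0, 0 < ρ b := hc.eventually (lt_mem_nhds (by rw [h1]; norm_num))
  have ev2 : ∀ᶠ b in 𝓝 b0, |z0 l * √(ρ b) - z0 l| < ε := by
    have h3 : |z0 l * √(ρ b0) - z0 l| < ε := by rw [h1]; simpa using hε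
    exact hc2.abs.eventually (gt_mem_nhds h3)
  have ev3 : ∀ᶠ b in 𝓝 b0, b l ≠ 0 := (continuousAt_apply l b0).eventually_ne hb
  filter_upwards [ev1, ev2, ev3] with b hb1 hb2 hb3
  refine ⟨Function.update z0 l (z0 l * √(ρ b)), ?_, ?_⟩
  · rw [← Finset.add_sum_erase univ _ (mem_univ l)]
    have e3 : ∑ m ∈ univ.erase l, b m * (Function.update z0 l (z0 l * √(ρ b)) m) ^ 2
        = ∑ m ∈ univ.erase l, b m * z0 m ^ 2 :=
      sum_congr rfl fun m hm => by rw [Function.update_of_ne (ne_of_mem_erase hm)]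
    rw [e3, Function.update_self, mul_pow, Real.sq_sqrt hb1.le]
    have e4 : b l * (z0 l ^ 2 * ρ b) = -(∑ m ∈ univ.erase l, b m * z0 m ^ 2) := by
      rw [hρ]
      simp only
      field_simp
    rw [e4]; ring
  · intro j
    by_cases hj : j = l
    · subst hj; rw [Function.update_self]; exact hb2
    · rw [Function.update_of_ne hj, sub_self, abs_zero]; exact hε

/-- a solution moves with the coefficients in the remaining case -/
lemma conic2 {b0 z0 : Fin 3 → ℝ} {l m : Fin 3} (hlm : m ≠ l) (hz : ∀ i, i ≠ l → z0 i = 0)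
    (hbl : b0 l = 0) (hbm : b0 m ≠ 0) {ε : ℝ} (hε : 0 < ε) :
    ∀ᶠ b in 𝓝 b0, b l * b m < 0 →
      ∃ z' : Fin 3 → ℝ, ∑ l, b l * z' l ^ 2 = 0 ∧ ∀ j, |z' j - z0 j| < ε := by
  obtain ⟨ρ, hρ⟩ : ∃ ρ : (Fin 3 → ℝ) → ℝ, ρ = fun b => -(b l * z0 l ^ 2) / b m := ⟨_, rfl⟩
  have hc : ContinuousAt ρ b0 := by
    rw [hρ]
    have c1 : Continuous fun b : Fin 3 → ℝ => -(b l * z0 l ^ 2) :=
      ((continuous_apply l).mul continuous_const).neg
    have c2 : Continuous fun b : Fin 3 → ℝ => b m := continuous_apply m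
    exact ContinuousAt.div c1.continuousAt c2.continuousAt hbm
  have h1 : ρ b0 = 0 := by rw [hρ]; simp [hbl]
  have hc2 : ContinuousAt (fun b => √(ρ b)) b0 := Real.continuous_sqrt.continuousAt.comp hc
  have ev2 : ∀ᶠ b in 𝓝 b0, √(ρ b) < ε := by
    have h3 : √(ρ b0) < ε := by rw [h1]; simpa using hε
    exact hc2.eventually (gt_mem_nhds h3)
  filter_upwards [ev2] with b hb2 hneg
  have hb3 : b m ≠ 0 := by
    rintro h; rw [h, mul_zero] at hneg; exact lt_irrefl _ hneg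
  have hb1 : 0 ≤ ρ b := by
    rw [hρ]
    simp only
    have e : -(b l * z0 l ^ 2) / b m = (-(b l * b m) * z0 l ^ 2) / (b m) ^ 2 := by
      field_simp
    rw [e]
    exact div_nonneg (mul_nonneg (by linarith) (sq_nonneg _)) (sq_nonneg _)
  refine ⟨Function.update z0 m (√(ρ b)), ?_, ?_⟩
  · rw [← Finset.add_sum_erase univ _ (mem_univ m), ← Finset.add_sum_erase (univ.erase m) _
      (mem_erase.2 ⟨hlm.symm, mem_univ l⟩)]
    have e3 : ∑ x ∈ (univ.erase m).erase l, b x * (Function.update z0 m (√(ρ b)) x) ^ 2 = 0 := by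
      refine sum_eq_zero fun x hx => ?_
      obtain ⟨h4, h5⟩ := mem_erase.1 hx
      rw [Function.update_of_ne (mem_erase.1 h5).1, hz x h4]
      ring
    rw [e3, Function.update_self, Function.update_of_ne hlm.symm, Real.sq_sqrt hb1, hρ]
    simp only
    field_simp
    ring
  · intro j
    by_cases hj : j = m
    · subst hj
      rw [Function.update_self, hz j hlm, sub_zero, abs_of_nonneg (Real.sqrt_nonneg _)]
      exact hb2
    · rw [Function.update_of_ne hj, sub_self, abs_zero]; exact hε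

/-- the sign near a simple zero -/
lemma sign_deriv {g : ℝ → ℝ} {d t0 σ : ℝ} (hg : HasDerivAt g d t0) (h0 : g t0 = 0) (hd : d ≠ 0)
    (hσ : σ = 1 ∨ σ = -1) : ∀ᶠ τ in 𝓝[>] (0 : ℝ), 0 < (σ * d) * g (t0 + σ * τ) := by
  have hσ0 : σ ≠ 0 := by rcases hσ with h | h <;> rw [h] <;> norm_num
  have h1 : HasDerivAt (fun τ : ℝ => t0 + σ * τ) σ 0 := by
    simpa using ((hasDerivAt_id (0 : ℝ)).const_mul σ).const_add t0
  have h2 : HasDerivAt (fun τ : ℝ => g (t0 + σ * τ)) (d * σ) 0 := by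
    have h3 : HasDerivAt g d (t0 + σ * 0) := by simpa using hg
    exact h3.comp 0 h1
  have h4 := hasDerivAt_iff_tendsto_slope.1 h2
  have h5 : Tendsto (fun τ : ℝ => (σ * d) * slope (fun τ : ℝ => g (t0 + σ * τ)) 0 τ) (𝓝[≠] 0)
      (𝓝 ((σ * d) * (d * σ))) := h4.const_mul _
  have hpos : 0 < (σ * d) * (d * σ) := by
    have : σ * d ≠ 0 := mul_ne_zero hσ0 hd
    have e : (σ * d) * (d * σ) = (σ * d) ^ 2 := by ring
    rw [e]; positivity
  have h6 : ∀ᶠ τ in 𝓝[≠] (0 : ℝ), 0 < (σ * d) * slope (fun τ : ℝ => g (t0 + σ * τ)) 0 τ :=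
    h5.eventually (lt_mem_nhds hpos)
  have h7 : ∀ᶠ τ in 𝓝[>] (0 : ℝ), 0 < (σ * d) * slope (fun τ : ℝ => g (t0 + σ * τ)) 0 τ :=
    h6.filter_mono (nhdsWithin_mono _ fun τ hτ => ne_of_gt hτ)
  filter_upwards [h7, self_mem_nhdsWithin] with τ hτ hτ0
  have hτ1 : (0 : ℝ) < τ := hτ0
  rw [slope_def_field] at hτ
  simp only [mul_zero, add_zero, h0, sub_zero] at hτ
  have e : (σ * d) * g (t0 + σ * τ) = ((σ * d) * (g (t0 + σ * τ) / τ)) * τ := by
    field_simp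
  rw [e]
  exact mul_pos hτ hτ1

/-- the sign near a point which is not a zero -/
lemma sign_cont {g : ℝ → ℝ} {t0 σ : ℝ} (hg : ContinuousAt g t0) (h0 : g t0 ≠ 0) :
    ∀ᶠ τ in 𝓝[>] (0 : ℝ), 0 < g t0 * g (t0 + σ * τ) := by
  have h1 : ContinuousAt (fun τ : ℝ => g t0 * g (t0 + σ * τ)) 0 := by
    refine continuousAt_const.mul ?_
    refine ContinuousAt.comp (g := g) (f := fun τ : ℝ => t0 + σ * τ) ?_ (by fun_prop)
    simpa using hg
  have h2 : 0 < g t0 * g (t0 + σ * 0) := by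
    rw [mul_zero, add_zero]; exact mul_self_pos.2 h0
  exact (h1.eventually (lt_mem_nhds h2)).filter_mono nhdsWithin_le_nhds

variable {r : ℕ} {Γ : Type} [TopologicalSpace Γ]

/-- the choice of the side -/
lemma side (p : Fin r × Fin 3 → Γ × ℝ → ℝ) (hp : ∀ k, Continuous (p k)) (γ0 : Γ) (t0 : ℝ)
    (nd1 : ∀ k k', k ≠ k' → p k (γ0, t0) = 0 → p k' (γ0, t0) ≠ 0)
    (nd2 : ∀ k, p k (γ0, t0) = 0 → ∃ d : ℝ, d ≠ 0 ∧ HasDerivAt (fun t => p k (γ0, t)) d t0) :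
    ∃ σ : ℝ, (σ = 1 ∨ σ = -1) ∧
      (∀ k, ∃ s : ℤ, (s = 1 ∨ s = -1) ∧
        ∀ᶠ τ in 𝓝[>] (0 : ℝ), 0 < (s : ℝ) * p k (γ0, t0 + σ * τ)) ∧
      ∀ i l, p (i, l) (γ0, t0) = 0 → ∀ᶠ τ in 𝓝[>] (0 : ℝ),
        (sg l * p (i, l) (γ0, t0 + σ * τ)) * (sg (l + 1) * p (i, l + 1) (γ0, t0 + σ * τ)) < 0 := by
  have hpc : ∀ k, Continuous fun t => p k (γ0, t) := fun k =>
    (hp k).comp (by fun_prop)
  have key : ∀ {a : ℝ} {q : ℝ → ℝ}, a ≠ 0 → (∀ᶠ τ in 𝓝[>] (0 : ℝ), 0 < a * q τ) →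
      ∃ s : ℤ, (s = 1 ∨ s = -1) ∧ ∀ᶠ τ in 𝓝[>] (0 : ℝ), 0 < (s : ℝ) * q τ := by
    intro a q ha h
    rcases lt_or_gt_of_ne ha with h1 | h1
    · refine ⟨-1, Or.inr rfl, h.mono fun τ hτ => ?_⟩
      push_cast
      by_contra hc
      push Not at hc
      nlinarith
    · refine ⟨1, Or.inl rfl, h.mono fun τ hτ => ?_⟩
      push_cast
      rw [one_mul]
      exact (mul_pos_iff_of_pos_left h1).1 hτ
  by_cases hex : ∃ k, p k (γ0, t0) = 0
  · obtain ⟨⟨i0, l0⟩, hk0⟩ := hex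
    obtain ⟨d, hd, hder⟩ := nd2 _ hk0
    have hne : ((i0, l0) : Fin r × Fin 3) ≠ (i0, l0 + 1) := by
      intro h
      exact fin3_ne l0 (Prod.mk.inj h).2.symm
    have hm := nd1 _ _ hne hk0
    obtain ⟨D, hD⟩ : ∃ D, D = sg l0 * d * (sg (l0 + 1) * p (i0, l0 + 1) (γ0, t0)) := ⟨_, rfl⟩
    have hD0 : D ≠ 0 := by
      rw [hD]
      exact mul_ne_zero (mul_ne_zero (sg_ne _) hd) (mul_ne_zero (sg_ne _) hm)
    obtain ⟨σ, hσ, hσD⟩ : ∃ σ : ℝ, (σ = 1 ∨ σ = -1) ∧ σ * D < 0 := by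
      rcases lt_or_gt_of_ne hD0 with h | h
      · exact ⟨1, Or.inl rfl, by linarith⟩
      · exact ⟨-1, Or.inr rfl, by linarith⟩
    have hσ0 : σ ≠ 0 := by rcases hσ with h | h <;> rw [h] <;> norm_num
    have hsd := sign_deriv hder hk0 hd hσ
    refine ⟨σ, hσ, fun k => ?_, fun i l hil => ?_⟩
    · by_cases hk : k = (i0, l0)
      · subst hk
        exact key (mul_ne_zero hσ0 hd) hsd
      · have hk1 : p k (γ0, t0) ≠ 0 := nd1 _ _ (Ne.symm hk) hk0
        exact key hk1 (sign_cont (hpc k).continuousAt hk1)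
    · have hil' : ((i, l) : Fin r × Fin 3) = (i0, l0) := by
        by_contra h
        exact nd1 _ _ h hil hk0
      obtain ⟨rfl, rfl⟩ := Prod.mk.inj hil'
      have hsc := sign_cont (σ := σ) (hpc (i, l + 1)).continuousAt hm
      filter_upwards [hsd, hsc] with τ h1 h2
      generalize p (i, l) (γ0, t0 + σ * τ) = X at h1 ⊢
      generalize p (i, l + 1) (γ0, t0 + σ * τ) = Y at h2 ⊢
      have h3 := mul_pos h1 h2
      have h4 : (sg l * X * (sg (l + 1) * Y)) * ((σ * d) * p (i, l + 1) (γ0, t0)) ^ 2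
          = (σ * D) * ((σ * d * X) * (p (i, l + 1) (γ0, t0) * Y)) := by
        rw [hD]; ring
      have h5 : (σ * D) * ((σ * d * X) * (p (i, l + 1) (γ0, t0) * Y)) < 0 :=
        mul_neg_of_neg_of_pos hσD h3
      rw [← h4] at h5
      by_contra hcon
      push Not at hcon
      have := mul_nonneg hcon (sq_nonneg ((σ * d) * p (i, l + 1) (γ0, t0)))
      linarith
  · push Not at hex
    refine ⟨1, Or.inl rfl, fun k => ?_, fun i l h => absurd h (hex _)⟩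
    exact key (hex k) (sign_cont (hpc k).continuousAt (hex k))

/-- the local lemma -/
lemma local_ (p : Fin r × Fin 3 → Γ × ℝ → ℝ) (hp : ∀ k, Continuous (p k)) (γ0 : Γ) (t0 : ℝ)
    (z0 : Fin r → Fin 3 → ℝ) (hz0 : ∀ i, z0 i ≠ 0)
    (heq : ∀ i, ∑ l, (sg l * p (i, l) (γ0, t0)) * z0 i l ^ 2 = 0)
    (nd1 : ∀ k k', k ≠ k' → p k (γ0, t0) = 0 → p k' (γ0, t0) ≠ 0)
    (nd2 : ∀ k, p k (γ0, t0) = 0 → ∃ d : ℝ, d ≠ 0 ∧ HasDerivAt (fun t => p k (γ0, t)) d t0)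
    {ε η : ℝ} (hε : 0 < ε) (hη : 0 < η) :
    ∃ (α β : ℝ) (s : Fin r × Fin 3 → ℤ), α < β ∧ (0 < α ∨ β < 0) ∧
      (∀ t ∈ Set.Icc α β, |t - t0| < η) ∧ (∀ k, s k = 1 ∨ s k = -1) ∧
      ∀ᶠ γ in 𝓝 γ0, ∀ t ∈ Set.Icc α β, (∀ k, 0 < (s k : ℝ) * p k (γ, t)) ∧
        ∀ i, ∃ z' : Fin 3 → ℝ, ∑ l, (sg l * p (i, l) (γ, t)) * z' l ^ 2 = 0 ∧
          ∀ j, |z' j - z0 i j| < ε := by
  obtain ⟨σ, hσ, hs, hneg⟩ := side p hp γ0 t0 nd1 nd2
  choose s hs1 hs2 using hs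
  -- the conics
  have hcon : ∀ i, ∀ᶠ b in 𝓝 (fun l => sg l * p (i, l) (γ0, t0)),
      (∀ l, p (i, l) (γ0, t0) = 0 → b l * b (l + 1) < 0) →
      ∃ z' : Fin 3 → ℝ, ∑ l, b l * z' l ^ 2 = 0 ∧ ∀ j, |z' j - z0 i j| < ε := by
    intro i
    by_cases h : ∃ l, sg l * p (i, l) (γ0, t0) ≠ 0 ∧ z0 i l ≠ 0
    · obtain ⟨l, hl1, hl2⟩ := h
      exact (conic1 (heq i) hl1 hl2 hε).mono fun b hb _ => hb
    · push Not at h
      obtain ⟨l, hl⟩ := Function.ne_iff.1 (hz0 i)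
      have hl' : z0 i l ≠ 0 := hl
      have hbl : sg l * p (i, l) (γ0, t0) = 0 := by
        by_contra h1
        exact hl' (h l h1)
      have hpl : p (i, l) (γ0, t0) = 0 := (mul_eq_zero.1 hbl).resolve_left (sg_ne l)
      have hoth : ∀ m, m ≠ l → sg m * p (i, m) (γ0, t0) ≠ 0 := by
        intro m hm
        refine mul_ne_zero (sg_ne m) (nd1 _ _ ?_ hpl)
        intro h1
        exact hm (Prod.mk.inj h1).2.symm
      have hl1 : l + 1 ≠ l := fin3_ne l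
      have := conic2 (b0 := fun l => sg l * p (i, l) (γ0, t0)) (z0 := z0 i) hl1
        (fun m hm => h m (hoth m hm)) hbl (hoth _ hl1) hε
      exact this.mono fun b hb h2 => hb (h2 l hpl)
  have hcon2 : ∀ᶠ q in 𝓝 (γ0, t0), ∀ i, (∀ l, p (i, l) (γ0, t0) = 0 →
      (sg l * p (i, l) q) * (sg (l + 1) * p (i, l + 1) q) < 0) →
      ∃ z' : Fin 3 → ℝ, ∑ l, (sg l * p (i, l) q) * z' l ^ 2 = 0 ∧ ∀ j, |z' j - z0 i j| < ε := by
    rw [Filter.eventually_all]
    intro i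
    have hcont : ContinuousAt (fun q : Γ × ℝ => fun l => sg l * p (i, l) q) (γ0, t0) :=
      (continuous_pi fun l => continuous_const.mul (hp (i, l))).continuousAt
    exact hcont.eventually (hcon i)
  rw [nhds_prod_eq, Filter.eventually_prod_iff] at hcon2
  obtain ⟨pa, hpa, pb, hpb, hab⟩ := hcon2
  -- small parameters
  have hline : Tendsto (fun τ : ℝ => t0 + σ * τ) (𝓝[>] 0) (𝓝 t0) := by
    have : Tendsto (fun τ : ℝ => t0 + σ * τ) (𝓝 0) (𝓝 (t0 + σ * 0)) :=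
      Continuous.tendsto (by fun_prop) 0
    rw [mul_zero, add_zero] at this
    exact this.mono_left nhdsWithin_le_nhds
  have ev : ∀ᶠ τ in 𝓝[>] (0 : ℝ), (∀ k, 0 < (s k : ℝ) * p k (γ0, t0 + σ * τ)) ∧
      (∀ i l, p (i, l) (γ0, t0) = 0 →
        (sg l * p (i, l) (γ0, t0 + σ * τ)) * (sg (l + 1) * p (i, l + 1) (γ0, t0 + σ * τ)) < 0) ∧
      pb (t0 + σ * τ) ∧ |t0 + σ * τ - t0| < η ∧ (t0 = 0 ∨ τ < |t0|) := by
    refine (Filter.eventually_all.2 hs2).and (Filter.Eventually.and (Filter.eventually_all.2 fun i =>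
      Filter.eventually_all.2 fun l => ?_) ((hline.eventually hpb).and
        (Filter.Eventually.and ?_ ?_)))
    · by_cases h : p (i, l) (γ0, t0) = 0
      · exact (hneg i l h).mono fun τ hτ _ => hτ
      · exact Filter.Eventually.of_forall fun τ h1 => absurd h1 h
    · have := hline.eventually (Metric.ball_mem_nhds t0 hη)
      exact this.mono fun τ hτ => by
        rw [← Real.dist_eq]; exact hτ
    · by_cases h : t0 = 0
      · exact Filter.Eventually.of_forall fun τ => Or.inl h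
      · have h1 : (0 : ℝ) < |t0| := abs_pos.2 h
        exact ((gt_mem_nhds h1 : ∀ᶠ τ in 𝓝 (0 : ℝ), τ < |t0|).filter_mono
          nhdsWithin_le_nhds).mono fun τ hτ => Or.inr hτ
  obtain ⟨τ0, hτ0, hall⟩ := mem_nhdsGT_iff_exists_Ioo_subset.1 ev
  have hτ0' : (0 : ℝ) < τ0 := hτ0
  have hmid : τ0 / 2 ∈ Set.Ioo 0 τ0 := ⟨by linarith, by linarith⟩
  have htest : t0 = 0 ∨ τ0 / 2 < |t0| := (hall hmid).2.2.2.2
  obtain ⟨α, β, hαβ, h0, hpar⟩ : ∃ α β : ℝ, α < β ∧ (0 < α ∨ β < 0) ∧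
      ∀ t ∈ Set.Icc α β, ∃ τ ∈ Set.Ioo 0 τ0, t = t0 + σ * τ := by
    rcases hσ with rfl | rfl
    · refine ⟨t0 + τ0 / 4, t0 + τ0 / 2, by linarith, ?_, fun t ht => ⟨t - t0, ?_, by ring⟩⟩
      · rcases htest with h | h
        · left; rw [h]; linarith
        · rcases le_or_gt 0 t0 with h1 | h1
          · left; linarith
          · right; rw [abs_of_neg h1] at h; linarith
      · exact ⟨by linarith [ht.1], by linarith [ht.2]⟩
    · refine ⟨t0 - τ0 / 2, t0 - τ0 / 4, by linarith, ?_, fun t ht => ⟨t0 - t, ?_, by ring⟩⟩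
      · rcases htest with h | h
        · right; rw [h]; linarith
        · rcases le_or_gt 0 t0 with h1 | h1
          · left; rw [abs_of_nonneg h1] at h; linarith
          · right; linarith
      · exact ⟨by linarith [ht.2], by linarith [ht.1]⟩
  have hA : ∀ t ∈ Set.Icc α β, (∀ k, 0 < (s k : ℝ) * p k (γ0, t)) ∧
      (∀ i l, p (i, l) (γ0, t0) = 0 →
        (sg l * p (i, l) (γ0, t)) * (sg (l + 1) * p (i, l + 1) (γ0, t)) < 0) ∧
      pb t ∧ |t - t0| < η := by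
    intro t ht
    obtain ⟨τ, hτ, rfl⟩ := hpar t ht
    obtain ⟨h1, h2, h3, h4, _⟩ := hall hτ
    exact ⟨h1, h2, h3, h4⟩
  refine ⟨α, β, s, hαβ, h0, fun t ht => (hA t ht).2.2.2, hs1, ?_⟩
  have ev1 : ∀ᶠ γ in 𝓝 γ0, ∀ t ∈ Set.Icc α β, ∀ k, 0 < (s k : ℝ) * p k (γ, t) := by
    refine isCompact_Icc.eventually_forall_of_forall_eventually fun t ht => ?_
    rw [Filter.eventually_all]
    intro k
    have hc : Continuous fun q : Γ × ℝ => (s k : ℝ) * p k (q.1, q.2) :=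
      continuous_const.mul (hp k)
    exact hc.continuousAt.eventually (lt_mem_nhds ((hA t ht).1 k))
  have ev2 : ∀ᶠ γ in 𝓝 γ0, ∀ t ∈ Set.Icc α β, ∀ i l, p (i, l) (γ0, t0) = 0 →
      (sg l * p (i, l) (γ, t)) * (sg (l + 1) * p (i, l + 1) (γ, t)) < 0 := by
    refine isCompact_Icc.eventually_forall_of_forall_eventually fun t ht => ?_
    rw [Filter.eventually_all]
    intro i
    rw [Filter.eventually_all]
    intro l
    by_cases h : p (i, l) (γ0, t0) = 0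
    · have hc : Continuous fun q : Γ × ℝ =>
          (sg l * p (i, l) (q.1, q.2)) * (sg (l + 1) * p (i, l + 1) (q.1, q.2)) :=
        (continuous_const.mul (hp _)).mul (continuous_const.mul (hp _))
      exact (hc.continuousAt.eventually (gt_mem_nhds ((hA t ht).2.1 i l h))).mono
        fun q hq _ => hq
    · exact Filter.Eventually.of_forall fun q h1 => absurd h1 h
  filter_upwards [ev1, ev2, hpa] with γ h1 h2 h3 t ht
  exact ⟨h1 t ht, fun i => hab h3 (hA t ht).2.2.1 i (h2 t ht i)⟩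

end Pool.Agent.N832.DW
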