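import Mathlib
import Pool.Agent.N718.DC.Stm4
import Pool.Agent.N832.DW.Loc

/-!
# DW/RDW: real points in the total space and finitely many intervals (helper832)

By compactness: the normalised nondegenerate data `(coefficients, base point, points on the conics)`
form a compact set, and near each of them one interval suffices.
-/

set_option autoImplicit false

namespace Pool.Agent.N832.DW

open Finset Filter Topology
open Pool.Agent.N718.DC

/-! ### Forms with real coefficients -/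

section forms

variable {e : ℕ}

lemma fm_hom (c : Fin (e + 2) → ℝ) (l x y : ℝ) : fm c (l * x) (l * y) = l ^ (e + 1) * fm c x y := by
  unfold fm
  rw [mul_sum]
  refine sum_congr rfl fun j _ => ?_
  have hj : (j : ℕ) ≤ e + 1 := Nat.lt_succ_iff.1 j.2
  have h : l ^ (e + 1) = l ^ (e + 1 - (j : ℕ)) * l ^ (j : ℕ) := by
    rw [← pow_add, Nat.sub_add_cancel hj]
  rw [mul_pow, mul_pow, h]
  ring

lemma fm_smul (c : Fin (e + 2) → ℝ) (l x y : ℝ) : fm (fun j => l * c j) x y = l * fm c x y := by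
  unfold fm
  rw [mul_sum]
  exact sum_congr rfl fun j _ => by ring

lemma fm_rev (c : Fin (e + 2) → ℝ) (x y : ℝ) : fm (fun j => c (Fin.rev j)) x y = fm c y x := by
  unfold fm
  rw [← Equiv.sum_comp Fin.revPerm]
  refine sum_congr rfl fun j _ => ?_
  have hj : (j : ℕ) ≤ e + 1 := Nat.lt_succ_iff.1 j.2
  change c (Fin.rev (Fin.rev j)) * x ^ (e + 1 - ((Fin.rev j : Fin (e + 2)) : ℕ))
    * y ^ ((Fin.rev j : Fin (e + 2)) : ℕ) = _
  rw [Fin.rev_rev, Fin.val_rev]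
  have h1 : e + 1 - (e + 2 - ((j : ℕ) + 1)) = j := by omega
  have h2 : e + 2 - ((j : ℕ) + 1) = e + 1 - j := by omega
  rw [h1, h2]
  ring

lemma fm_zero (c : Fin (e + 2) → ℝ) : fm c 0 0 = 0 := by
  unfold fm
  refine sum_eq_zero fun j _ => ?_
  by_cases h : (j : ℕ) = 0
  · rw [h, Nat.sub_zero, zero_pow (by omega)]; ring
  · rw [zero_pow (n := (j : ℕ)) h, mul_zero]

/-- the derivative of `t ↦ fm c 1 t` -/
noncomputable def dR (c : Fin (e + 2) → ℝ) (t : ℝ) : ℝ :=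
  ∑ j : Fin (e + 2), (j : ℝ) * c j * t ^ ((j : ℕ) - 1)

lemma hasDeriv_fm (c : Fin (e + 2) → ℝ) (t : ℝ) :
    HasDerivAt (fun t => fm c 1 t) (dR c t) t := by
  unfold fm dR
  have h : ∀ j ∈ (univ : Finset (Fin (e + 2))), HasDerivAt
      (fun t : ℝ => c j * 1 ^ (e + 1 - (j : ℕ)) * t ^ (j : ℕ)) ((j : ℝ) * c j * t ^ ((j : ℕ) - 1)) t := by
    intro j _
    have := (hasDerivAt_pow (j : ℕ) t).const_mul (c j * 1 ^ (e + 1 - (j : ℕ)))
    exact this.congr_deriv (by rw [one_pow]; ring)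
  exact HasDerivAt.fun_sum h

lemma dR_smul (c : Fin (e + 2) → ℝ) (l t : ℝ) : dR (fun j => l * c j) t = l * dR c t := by
  unfold dR
  rw [mul_sum]
  exact sum_congr rfl fun j _ => by ring

end forms

section main

variable {r : ℕ} {e : Fin r × Fin 3 → ℕ}

/-- families of forms with real coefficients -/
abbrev Ga (e : Fin r × Fin 3 → ℕ) : Type := (k : Fin r × Fin 3) → Fin (e k + 2) → ℝ

lemma cont_fm (k : Fin r × Fin 3) {X : Type} [TopologicalSpace X] {g : X → Ga e} {u v : X → ℝ}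
    (hg : Continuous g) (hu : Continuous u) (hv : Continuous v) :
    Continuous fun x => fm (g x k) (u x) (v x) := by
  unfold fm
  refine continuous_finsetSum _ fun j _ => ?_
  have h1 : Continuous fun x => g x k j := (continuous_apply j).comp ((continuous_apply k).comp hg)
  exact (h1.mul (hu.pow _)).mul (hv.pow _)

lemma cont_dR (k : Fin r × Fin 3) {X : Type} [TopologicalSpace X] {g : X → Ga e} {v : X → ℝ}
    (hg : Continuous g) (hv : Continuous v) : Continuous fun x => dR (g x k) (v x) := by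
  unfold dR
  refine continuous_finsetSum _ fun j _ => ?_
  have h1 : Continuous fun x => g x k j := (continuous_apply j).comp ((continuous_apply k).comp hg)
  exact (continuous_const.mul h1).mul (hv.pow _)

/-- the family with the reversed forms -/
def rvR (γ : Ga e) : Ga e := fun k j => γ k (Fin.rev j)

lemma cont_rvR : Continuous (rvR : Ga e → Ga e) := by
  unfold rvR
  refine continuous_pi fun k => continuous_pi fun j => ?_
  exact (continuous_apply (Fin.rev j)).comp (continuous_apply k)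

/-- not degenerate at the points `(1, t)` -/
def ND (δ : ℝ) (γ : Ga e) : Prop := ∀ t : ℝ, |t| ≤ 1 →
  (∀ a b, a ≠ b → δ ≤ max |fm (γ a) 1 t| |fm (γ b) 1 t|) ∧ ∀ a, δ ≤ max |fm (γ a) 1 t| |dR (γ a) t|

lemma closed_ND (δ : ℝ) : IsClosed {γ : Ga e | ND δ γ} := by
  unfold ND
  simp only [Set.ofPred_forall, Set.ofPred_and]
  refine isClosed_iInter fun t => isClosed_iInter fun _ => IsClosed.inter ?_ ?_
  · refine isClosed_iInter fun a => isClosed_iInter fun b => isClosed_iInter fun _ => ?_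
    exact isClosed_le continuous_const ((cont_fm a continuous_id continuous_const
      continuous_const).abs.max (cont_fm b continuous_id continuous_const continuous_const).abs)
  · refine isClosed_iInter fun a => ?_
    exact isClosed_le continuous_const ((cont_fm a continuous_id continuous_const
      continuous_const).abs.max (cont_dR a continuous_id continuous_const).abs)

/-- the equation of a conic over a point -/
def Eqn (γ : Ga e) (x : Fin 2 → ℝ) (i : Fin r) (z : Fin 3 → ℝ) : Prop :=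
  fm (γ (i, 0)) (x 0) (x 1) * z 0 ^ 2 + fm (γ (i, 1)) (x 0) (x 1) * z 1 ^ 2
    = fm (γ (i, 2)) (x 0) (x 1) * z 2 ^ 2

/-- the normalised data -/
def KS (e : Fin r × Fin 3 → ℕ) (δ : ℝ) : Set (Ga e × (Fin 2 → ℝ) × (Fin r → Fin 3 → ℝ)) :=
  {q | ((∀ k j, |q.1 k j| ≤ 1) ∧ ‖q.2.1‖ = 1 ∧ ∀ i, ‖q.2.2 i‖ = 1) ∧
    (∀ i, Eqn q.1 q.2.1 i (q.2.2 i)) ∧ ND δ q.1 ∧ ND δ (rvR q.1)}

lemma compact_KS (δ : ℝ) : IsCompact (KS e δ) := by
  refine Metric.isCompact_of_isClosed_isBounded ?_ ?_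
  · have hx : ∀ j, Continuous fun q : Ga e × (Fin 2 → ℝ) × (Fin r → Fin 3 → ℝ) =>
        q.2.1 j := fun j => (continuous_apply j).comp (continuous_fst.comp continuous_snd)
    have hzi : ∀ i, Continuous fun q : Ga e × (Fin 2 → ℝ) × (Fin r → Fin 3 → ℝ) =>
        q.2.2 i := fun i => (continuous_apply i).comp (continuous_snd.comp continuous_snd)
    have hz : ∀ i j, Continuous fun q : Ga e × (Fin 2 → ℝ) × (Fin r → Fin 3 → ℝ) =>
        q.2.2 i j ^ 2 := fun i j => ((continuous_apply j).comp (hzi i)).pow 2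
    have hf : ∀ i l, Continuous fun q : Ga e × (Fin 2 → ℝ) × (Fin r → Fin 3 → ℝ) =>
        fm (q.1 (i, l)) (q.2.1 0) (q.2.1 1) := fun i l =>
          cont_fm (i, l) continuous_fst (hx 0) (hx 1)
    have hg : ∀ k j, Continuous fun q : Ga e × (Fin 2 → ℝ) × (Fin r → Fin 3 → ℝ) =>
        q.1 k j := fun k j => (continuous_apply j).comp ((continuous_apply k).comp continuous_fst)
    have c1 : IsClosed (⋂ k, ⋂ j, {q : Ga e × (Fin 2 → ℝ) × (Fin r → Fin 3 → ℝ) |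
        |q.1 k j| ≤ 1}) :=
      isClosed_iInter fun k => isClosed_iInter fun j => isClosed_le (hg k j).abs continuous_const
    have c2 : IsClosed {q : Ga e × (Fin 2 → ℝ) × (Fin r → Fin 3 → ℝ) | ‖q.2.1‖ = 1} :=
      isClosed_eq (continuous_fst.comp continuous_snd).norm continuous_const
    have c3 : IsClosed (⋂ i, {q : Ga e × (Fin 2 → ℝ) × (Fin r → Fin 3 → ℝ) | ‖q.2.2 i‖ = 1}) :=
      isClosed_iInter fun i => isClosed_eq (hzi i).norm continuous_const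
    have c4 : IsClosed (⋂ i, {q : Ga e × (Fin 2 → ℝ) × (Fin r → Fin 3 → ℝ) |
        fm (q.1 (i, 0)) (q.2.1 0) (q.2.1 1) * q.2.2 i 0 ^ 2
          + fm (q.1 (i, 1)) (q.2.1 0) (q.2.1 1) * q.2.2 i 1 ^ 2
          = fm (q.1 (i, 2)) (q.2.1 0) (q.2.1 1) * q.2.2 i 2 ^ 2}) :=
      isClosed_iInter fun i => isClosed_eq (((hf i 0).mul (hz i 0)).add ((hf i 1).mul (hz i 1)))
        ((hf i 2).mul (hz i 2))
    have c5 : IsClosed {q : Ga e × (Fin 2 → ℝ) × (Fin r → Fin 3 → ℝ) | ND δ q.1} :=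
      (closed_ND δ).preimage continuous_fst
    have c6 : IsClosed {q : Ga e × (Fin 2 → ℝ) × (Fin r → Fin 3 → ℝ) | ND δ (rvR q.1)} :=
      (closed_ND δ).preimage (cont_rvR.comp continuous_fst)
    have hE : KS e δ = ((⋂ k, ⋂ j, {q : Ga e × (Fin 2 → ℝ) × (Fin r → Fin 3 → ℝ) |
        |q.1 k j| ≤ 1}) ∩ ({q | ‖q.2.1‖ = 1} ∩ ⋂ i, {q | ‖q.2.2 i‖ = 1})) ∩
        ((⋂ i, {q : Ga e × (Fin 2 → ℝ) × (Fin r → Fin 3 → ℝ) |
        fm (q.1 (i, 0)) (q.2.1 0) (q.2.1 1) * q.2.2 i 0 ^ 2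
          + fm (q.1 (i, 1)) (q.2.1 0) (q.2.1 1) * q.2.2 i 1 ^ 2
          = fm (q.1 (i, 2)) (q.2.1 0) (q.2.1 1) * q.2.2 i 2 ^ 2}) ∩
        ({q | ND δ q.1} ∩ {q | ND δ (rvR q.1)})) := by
      ext q
      simp only [KS, Eqn, Set.mem_inter_iff, Set.mem_iInter, Set.mem_ofPred_eq]
    rw [hE]
    exact (c1.inter (c2.inter c3)).inter (c4.inter (c5.inter c6))
  · refine (Metric.isBounded_closedBall (x := 0) (r := 1)).subset fun q hq => ?_
    obtain ⟨⟨h1, h2, h3⟩, -⟩ := hq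
    rw [mem_closedBall_zero_iff, Prod.norm_def, Prod.norm_def]
    refine max_le ?_ (max_le h2.le ?_)
    · rw [pi_norm_le_iff_of_nonneg zero_le_one]
      intro k
      rw [pi_norm_le_iff_of_nonneg zero_le_one]
      intro j
      rw [Real.norm_eq_abs]
      exact h1 k j
    · rw [pi_norm_le_iff_of_nonneg zero_le_one]
      exact fun i => (h3 i).le

/-- the interval is good for the data -/
def Good (ε : ℝ) (w : ℝ × ℝ) (q : Ga e × (Fin 2 → ℝ) × (Fin r → Fin 3 → ℝ)) : Prop :=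
  ∃ s : Fin r × Fin 3 → ℤ, SS s ∧
    (∀ k, ∀ t : ℝ, w.1 < t → t < w.2 → 0 < (s k : ℝ) * fm (q.1 k) 1 t) ∧
    ∀ t : ℝ, w.1 < t → t < w.2 → Near ε q.2.1 ![1, t] ∧ ∀ i, ∃ z' : Fin 3 → ℝ,
      OnC (fm (q.1 (i, 0)) (1 : ℝ) t) (fm (q.1 (i, 1)) (1 : ℝ) t) (fm (q.1 (i, 2)) (1 : ℝ) t) z' ∧
        Near ε (q.2.2 i) z'

lemma no_signs {A B C : ℝ} {z : Fin 3 → ℝ} (h : OnC A B C z) :
    ¬ (0 < A ∧ 0 < B ∧ C < 0) ∧ ¬ (A < 0 ∧ B < 0 ∧ 0 < C) := by
  obtain ⟨hne, heq⟩ := h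
  constructor
  · rintro ⟨hA, hB, hC⟩
    have hu := mul_nonneg hA.le (sq_nonneg (z 0))
    have hv := mul_nonneg hB.le (sq_nonneg (z 1))
    have hw := mul_nonneg (neg_pos.2 hC).le (sq_nonneg (z 2))
    have hu0 : A * z 0 ^ 2 = 0 := by nlinarith
    have hv0 : B * z 1 ^ 2 = 0 := by nlinarith
    have hw0 : C * z 2 ^ 2 = 0 := by nlinarith
    apply hne
    funext j
    fin_cases j
    · exact pow_eq_zero_iff two_ne_zero |>.1 ((mul_eq_zero.1 hu0).resolve_left hA.ne')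
    · exact pow_eq_zero_iff two_ne_zero |>.1 ((mul_eq_zero.1 hv0).resolve_left hB.ne')
    · exact pow_eq_zero_iff two_ne_zero |>.1 ((mul_eq_zero.1 hw0).resolve_left hC.ne)
  · rintro ⟨hA, hB, hC⟩
    have hu := mul_nonneg (neg_pos.2 hA).le (sq_nonneg (z 0))
    have hv := mul_nonneg (neg_pos.2 hB).le (sq_nonneg (z 1))
    have hw := mul_nonneg hC.le (sq_nonneg (z 2))
    have hu0 : A * z 0 ^ 2 = 0 := by nlinarith
    have hv0 : B * z 1 ^ 2 = 0 := by nlinarith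
    have hw0 : C * z 2 ^ 2 = 0 := by nlinarith
    apply hne
    funext j
    fin_cases j
    · exact pow_eq_zero_iff two_ne_zero |>.1 ((mul_eq_zero.1 hu0).resolve_left hA.ne)
    · exact pow_eq_zero_iff two_ne_zero |>.1 ((mul_eq_zero.1 hv0).resolve_left hB.ne)
    · exact pow_eq_zero_iff two_ne_zero |>.1 ((mul_eq_zero.1 hw0).resolve_left hC.ne')

lemma SS_of {s : Fin r × Fin 3 → ℤ} (hs : ∀ k, s k = 1 ∨ s k = -1) {f : Fin r × Fin 3 → ℝ}
    (hf : ∀ k, 0 < (s k : ℝ) * f k)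
    (h : ∀ i, ∃ z : Fin 3 → ℝ, OnC (f (i, 0)) (f (i, 1)) (f (i, 2)) z) : SS s := by
  refine ⟨hs, fun i => ?_⟩
  obtain ⟨z, hz⟩ := h i
  obtain ⟨h1, h2⟩ := no_signs hz
  have p1 : ∀ k, s k = 1 → 0 < f k := by
    intro k hk
    have := hf k
    rw [hk] at this
    push_cast at this
    linarith
  have p2 : ∀ k, s k = -1 → f k < 0 := by
    intro k hk
    have := hf k
    rw [hk] at this
    push_cast at this
    linarith
  exact ⟨fun ⟨a, b, c⟩ => h1 ⟨p1 _ a, p1 _ b, p2 _ c⟩, fun ⟨a, b, c⟩ => h2 ⟨p2 _ a, p2 _ b, p1 _ c⟩⟩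

lemma sum_sg (a z : Fin 3 → ℝ) : (∑ l, (sg l * a l) * z l ^ 2 = 0) ↔
    a 0 * z 0 ^ 2 + a 1 * z 1 ^ 2 = a 2 * z 2 ^ 2 := by
  rw [Fin.sum_univ_three]
  have h0 : sg 0 = 1 := by unfold sg; rw [if_neg (by decide)]
  have h1 : sg 1 = 1 := by unfold sg; rw [if_neg (by decide)]
  have h2 : sg 2 = -1 := by unfold sg; rw [if_pos rfl]
  rw [h0, h1, h2]
  constructor <;> intro h <;> linarith

/-- scaling of the base point in an equation -/
lemma eqn_scale (he : ∀ i l l', e (i, l) = e (i, l')) (γ : Ga e) (i : Fin r) (l x y : ℝ) (hl : l ≠ 0)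
    (z : Fin 3 → ℝ) :
    (fm (γ (i, 0)) (l * x) (l * y) * z 0 ^ 2 + fm (γ (i, 1)) (l * x) (l * y) * z 1 ^ 2
      = fm (γ (i, 2)) (l * x) (l * y) * z 2 ^ 2) ↔
    (fm (γ (i, 0)) x y * z 0 ^ 2 + fm (γ (i, 1)) x y * z 1 ^ 2 = fm (γ (i, 2)) x y * z 2 ^ 2) := by
  have q1 : l ^ (e (i, 1) + 1) = l ^ (e (i, 0) + 1) := by rw [he i 1 0]
  have q2 : l ^ (e (i, 2) + 1) = l ^ (e (i, 0) + 1) := by rw [he i 2 0]
  rw [fm_hom, fm_hom, fm_hom, q1, q2]
  have hp : l ^ (e (i, 0) + 1) ≠ 0 := pow_ne_zero _ hl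
  constructor
  · intro h
    apply mul_left_cancel₀ hp
    linear_combination h
  · intro h
    linear_combination l ^ (e (i, 0) + 1) * h

lemma norm_one_ne {n : ℕ} {z : Fin n → ℝ} (h : ‖z‖ = 1) : z ≠ 0 := by
  rintro rfl
  rw [norm_zero] at h
  exact zero_ne_one h

lemma exists_one {n : ℕ} {z : Fin (n + 1) → ℝ} (h : ‖z‖ = 1) : ∃ j, |z j| = 1 := by
  obtain ⟨j, hj⟩ := Finite.exists_max fun j => ‖z j‖
  refine ⟨j, ?_⟩
  rw [← Real.norm_eq_abs]
  refine le_antisymm (h ▸ norm_le_pi_norm z j) ?_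
  rw [← h]
  exact (pi_norm_le_iff_of_nonneg (norm_nonneg _)).2 hj

lemma near_one {n : ℕ} {z z0 z' : Fin n → ℝ} {ε : ℝ} (hz : ‖z‖ = 1) (h1 : ∀ j, |z j - z0 j| < ε / 2)
    (h2 : ∀ j, |z' j - z0 j| < ε / 2) : Near ε z z' := by
  refine ⟨1, one_ne_zero, fun j => ?_⟩
  rw [hz, one_mul, one_mul, Real.norm_eq_abs]
  have e1 : z j - z' j = (z j - z0 j) - (z' j - z0 j) := by ring
  rw [e1]
  refine (abs_sub _ _).trans ?_
  linarith [h1 j, h2 j]

lemma ne_of_near {z0 z' : Fin 3 → ℝ} (hz : ‖z0‖ = 1) (h2 : ∀ j, |z' j - z0 j| < 1 / 2) :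
    z' ≠ 0 := by
  rintro rfl
  obtain ⟨j, hj⟩ := exists_one hz
  have := h2 j
  rw [Pi.zero_apply, zero_sub, abs_neg, hj] at this
  norm_num at this

/-- the points near a given one in the total space -/
lemma ev_near (q0 : Ga e × (Fin 2 → ℝ) × (Fin r → Fin 3 → ℝ)) {ε : ℝ} (hε : 0 < ε) :
    ∀ᶠ q in 𝓝 q0, (∀ j, |q.2.1 j - q0.2.1 j| < ε) ∧ ∀ i j, |q.2.2 i j - q0.2.2 i j| < ε := by
  refine Filter.Eventually.and (Filter.eventually_all.2 fun j => ?_)
    (Filter.eventually_all.2 fun i => Filter.eventually_all.2 fun j => ?_)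
  · have hc : Continuous fun q : Ga e × (Fin 2 → ℝ) × (Fin r → Fin 3 → ℝ) =>
        |q.2.1 j - q0.2.1 j| :=
      (((continuous_apply j).comp (continuous_fst.comp continuous_snd)).sub continuous_const).abs
    refine hc.continuousAt.eventually (gt_mem_nhds ?_)
    simpa using hε
  · have hc0 : Continuous fun q : Ga e × (Fin 2 → ℝ) × (Fin r → Fin 3 → ℝ) => q.2.2 i :=
      (continuous_apply i).comp (continuous_snd.comp continuous_snd)
    have hc1 : Continuous fun q : Ga e × (Fin 2 → ℝ) × (Fin r → Fin 3 → ℝ) => q.2.2 i j :=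
      (continuous_apply j).comp hc0
    have hc : Continuous fun q : Ga e × (Fin 2 → ℝ) × (Fin r → Fin 3 → ℝ) =>
        |q.2.2 i j - q0.2.2 i j| := (hc1.sub continuous_const).abs
    refine hc.continuousAt.eventually (gt_mem_nhds ?_)
    simpa using hε

/-- first chart -/
lemma chart1 (he : ∀ i l l', e (i, l) = e (i, l')) {ε δ : ℝ} (hε : 0 < ε) (hδ : 0 < δ)
    {q0 : Ga e × (Fin 2 → ℝ) × (Fin r → Fin 3 → ℝ)} (hq0 : q0 ∈ KS e δ) (hx : |q0.2.1 0| = 1) :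
    ∃ w : ℝ × ℝ, w.1 < w.2 ∧ ∀ᶠ q in 𝓝 q0, q ∈ KS e δ → Good ε w q := by
  obtain ⟨γ0, x0, z0⟩ := q0
  obtain ⟨⟨h1, h2, h3⟩, h4, h5, h6⟩ := hq0
  simp only at h1 h2 h3 h4 h5 h6 hx
  have hx0 : x0 0 ≠ 0 := by rw [← abs_pos, hx]; norm_num
  obtain ⟨t0, ht0⟩ : ∃ t0, t0 = x0 1 / x0 0 := ⟨_, rfl⟩
  have ht1 : |t0| ≤ 1 := by
    rw [ht0, abs_div, hx, div_one, ← h2, ← Real.norm_eq_abs]
    exact norm_le_pi_norm x0 1
  have hx01 : x0 1 = x0 0 * t0 := by rw [ht0]; field_simp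
  have hp : ∀ k, Continuous fun y : Ga e × ℝ => fm (y.1 k) 1 y.2 := fun k =>
    cont_fm k continuous_fst continuous_const continuous_snd
  have hε' : 0 < min (ε / 2) (1 / 2) := lt_min (by linarith) (by norm_num)
  obtain ⟨α, β, s, hαβ, -, hη, hs, hev⟩ := local_ (fun k (y : Ga e × ℝ) => fm (y.1 k) 1 y.2) hp γ0 t0
    z0 (fun i => norm_one_ne (h3 i)) (fun i => by
      rw [sum_sg (fun l => fm (γ0 (i, l)) 1 t0)]
      rw [← eqn_scale he γ0 i (x0 0) 1 t0 hx0, mul_one, ← hx01]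
      exact h4 i)
    (fun k k' hkk hk hk' => by
      have := (h5 t0 ht1).1 k k' hkk
      simp only at hk hk'
      rw [hk, hk', abs_zero, max_self] at this
      linarith)
    (fun k hk => by
      refine ⟨dR (γ0 k) t0, ?_, hasDeriv_fm _ _⟩
      intro h0
      have := (h5 t0 ht1).2 k
      simp only at hk
      rw [hk, h0, abs_zero, max_self] at this
      linarith) hε' (show 0 < ε / 2 by linarith)
  refine ⟨(α, β), hαβ, ?_⟩
  have hev' : ∀ᶠ q : Ga e × (Fin 2 → ℝ) × (Fin r → Fin 3 → ℝ) in 𝓝 (γ0, x0, z0), _ :=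
    (continuous_fst.continuousAt (x := (γ0, x0, z0))).eventually hev
  have hnx : ∀ᶠ q : Ga e × (Fin 2 → ℝ) × (Fin r → Fin 3 → ℝ) in 𝓝 (γ0, x0, z0),
      |q.2.1 1 - q.2.1 0 * t0| < ε / 2 := by
    have hc : Continuous fun q : Ga e × (Fin 2 → ℝ) × (Fin r → Fin 3 → ℝ) =>
        |q.2.1 1 - q.2.1 0 * t0| :=
      (((continuous_apply 1).comp (continuous_fst.comp continuous_snd)).sub
        (((continuous_apply 0).comp (continuous_fst.comp continuous_snd)).mul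
          continuous_const)).abs
    refine hc.continuousAt.eventually (gt_mem_nhds ?_)
    simp only [hx01, sub_self, abs_zero]
    linarith
  have hnz := ev_near (γ0, x0, z0) (show 0 < min (ε / 2) (1 / 2) from hε')
  filter_upwards [hev', hnx, hnz] with q hq1 hq2 hq3 hqK
  obtain ⟨γ, x, z⟩ := q
  obtain ⟨⟨k1, k2, k3⟩, -⟩ := hqK
  simp only at hq1 hq2 hq3 k1 k2 k3
  have hsol : ∀ t ∈ Set.Icc α β, ∀ i, ∃ z' : Fin 3 → ℝ,
      OnC (fm (γ (i, 0)) (1 : ℝ) t) (fm (γ (i, 1)) (1 : ℝ) t) (fm (γ (i, 2)) (1 : ℝ) t) z' ∧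
        Near ε (z i) z' := by
    intro t ht i
    obtain ⟨z', hz1, hz2⟩ := (hq1 t ht).2 i
    rw [sum_sg (fun l => fm (γ (i, l)) 1 t)] at hz1
    refine ⟨z', ⟨ne_of_near (h3 i) fun j => (hz2 j).trans_le (min_le_right _ _), hz1⟩, ?_⟩
    exact near_one (k3 i) (fun j => (hq3.2 i j).trans_le (min_le_left _ _))
      (fun j => (hz2 j).trans_le (min_le_left _ _))
  refine ⟨s, SS_of hs (f := fun k => fm (γ k) 1 α)
    (hq1 α (Set.left_mem_Icc.2 hαβ.le)).1 (fun i => ?_), fun k t ht1 ht2 => ?_, fun t ht1 ht2 => ?_⟩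
  · obtain ⟨z', hz', -⟩ := hsol α (Set.left_mem_Icc.2 hαβ.le) i
    exact ⟨z', hz'⟩
  · exact (hq1 t ⟨ht1.le, ht2.le⟩).1 k
  · refine ⟨?_, hsol t ⟨ht1.le, ht2.le⟩⟩
    have hxq : x 0 ≠ 0 := by
      have := (hq3.1 0).trans_le (min_le_right _ _)
      intro h0
      rw [h0, zero_sub, abs_neg, hx] at this
      norm_num at this
    refine ⟨x 0, hxq, fun j => ?_⟩
    rw [k2, one_mul, Real.norm_eq_abs]
    fin_cases j
    · simp
      exact hε.le
    · change |x 1 - x 0 * t| ≤ ε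
      have e1 : x 1 - x 0 * t = (x 1 - x 0 * t0) + x 0 * (t0 - t) := by ring
      have h7 : |x 0| ≤ 1 := by
        rw [← k2, ← Real.norm_eq_abs]; exact norm_le_pi_norm x 0
      have h8 : |x 0 * (t0 - t)| ≤ ε / 2 := by
        rw [abs_mul, abs_sub_comm]
        calc |x 0| * |t - t0| ≤ 1 * |t - t0| := mul_le_mul_of_nonneg_right h7 (abs_nonneg _)
          _ ≤ ε / 2 := by rw [one_mul]; exact (hη t ⟨ht1.le, ht2.le⟩).le
      rw [e1]
      refine (abs_add_le _ _).trans ?_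
      linarith

/-- second chart -/
lemma chart2 (he : ∀ i l l', e (i, l) = e (i, l')) {ε δ : ℝ} (hε : 0 < ε) (hδ : 0 < δ)
    {q0 : Ga e × (Fin 2 → ℝ) × (Fin r → Fin 3 → ℝ)} (hq0 : q0 ∈ KS e δ) (hx : |q0.2.1 1| = 1) :
    ∃ w : ℝ × ℝ, w.1 < w.2 ∧ ∀ᶠ q in 𝓝 q0, q ∈ KS e δ → Good ε w q := by
  obtain ⟨γ0, x0, z0⟩ := q0
  obtain ⟨⟨h1, h2, h3⟩, h4, h5, h6⟩ := hq0
  simp only at h1 h2 h3 h4 h5 h6 hx
  have hx0 : x0 1 ≠ 0 := by rw [← abs_pos, hx]; norm_num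
  obtain ⟨t0, ht0⟩ : ∃ t0, t0 = x0 0 / x0 1 := ⟨_, rfl⟩
  have ht1 : |t0| ≤ 1 := by
    rw [ht0, abs_div, hx, div_one, ← h2, ← Real.norm_eq_abs]
    exact norm_le_pi_norm x0 0
  have hx01 : x0 0 = x0 1 * t0 := by rw [ht0]; field_simp
  have hp : ∀ k, Continuous fun y : Ga e × ℝ => fm (y.1 k) y.2 1 := fun k =>
    cont_fm k continuous_fst continuous_snd continuous_const
  have hε' : 0 < min (ε / 2) (1 / 2) := lt_min (by linarith) (by norm_num)
  have hrev : ∀ k t, fm (rvR γ0 k) 1 t = fm (γ0 k) t 1 := fun k t => fm_rev (γ0 k) 1 t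
  obtain ⟨α, β, s, hαβ, h0, hη, hs, hev⟩ := local_ (fun k (y : Ga e × ℝ) => fm (y.1 k) y.2 1) hp γ0 t0
    z0 (fun i => norm_one_ne (h3 i)) (fun i => by
      rw [sum_sg (fun l => fm (γ0 (i, l)) t0 1)]
      rw [← eqn_scale he γ0 i (x0 1) t0 1 hx0, mul_one, ← hx01]
      exact h4 i)
    (fun k k' hkk hk hk' => by
      have := (h6 t0 ht1).1 k k' hkk
      simp only at hk hk'
      rw [hrev, hrev, hk, hk', abs_zero, max_self] at this
      linarith)
    (fun k hk => by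
      have hd := hasDeriv_fm (rvR γ0 k) t0
      simp only [hrev] at hd
      refine ⟨dR (rvR γ0 k) t0, ?_, hd⟩
      intro h0
      have := (h6 t0 ht1).2 k
      simp only at hk
      rw [hrev, hk, h0, abs_zero, max_self] at this
      linarith) hε' (show 0 < ε / 2 by linarith)
  -- the interval and the sign of `t`
  obtain ⟨θ, hθ, hθα, hinv⟩ : ∃ θ : ℤ, (θ = 1 ∨ θ = -1) ∧ (1 / β < 1 / α) ∧
      ∀ t, 1 / β < t → t < 1 / α → 0 < (θ : ℝ) * t ∧ t⁻¹ ∈ Set.Ioo α β := by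
    rcases h0 with h0 | h0
    · refine ⟨1, Or.inl rfl, one_div_lt_one_div_of_lt h0 hαβ, fun t h7 h8 => ?_⟩
      have hβ : 0 < β := h0.trans hαβ
      have ht : 0 < t := (one_div_pos.2 hβ).trans h7
      refine ⟨by push_cast; linarith, ?_, ?_⟩
      · rw [lt_inv_comm₀ h0 ht, ← one_div]; exact h8
      · rw [inv_lt_comm₀ ht hβ, ← one_div]; exact h7
    · have hα : α < 0 := hαβ.trans h0
      refine ⟨-1, Or.inr rfl, one_div_lt_one_div_of_neg_of_lt h0 hαβ, fun t h7 h8 => ?_⟩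
      have ht : t < 0 := h8.trans (one_div_neg.2 hα)
      refine ⟨by push_cast; linarith, ?_, ?_⟩
      · rw [lt_inv_of_neg hα ht, ← one_div]; exact h8
      · rw [inv_lt_of_neg ht h0, ← one_div]; exact h7
  refine ⟨(1 / β, 1 / α), hθα, ?_⟩
  have hev' : ∀ᶠ q : Ga e × (Fin 2 → ℝ) × (Fin r → Fin 3 → ℝ) in 𝓝 (γ0, x0, z0), _ :=
    (continuous_fst.continuousAt (x := (γ0, x0, z0))).eventually hev
  have hnx : ∀ᶠ q : Ga e × (Fin 2 → ℝ) × (Fin r → Fin 3 → ℝ) in 𝓝 (γ0, x0, z0),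
      |q.2.1 0 - q.2.1 1 * t0| < ε / 2 := by
    have hc : Continuous fun q : Ga e × (Fin 2 → ℝ) × (Fin r → Fin 3 → ℝ) =>
        |q.2.1 0 - q.2.1 1 * t0| :=
      (((continuous_apply 0).comp (continuous_fst.comp continuous_snd)).sub
        (((continuous_apply 1).comp (continuous_fst.comp continuous_snd)).mul
          continuous_const)).abs
    refine hc.continuousAt.eventually (gt_mem_nhds ?_)
    simp only [hx01, sub_self, abs_zero]
    linarith
  have hnz := ev_near (γ0, x0, z0) (show 0 < min (ε / 2) (1 / 2) from hε')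
  filter_upwards [hev', hnx, hnz] with q hq1 hq2 hq3 hqK
  obtain ⟨γ, x, z⟩ := q
  obtain ⟨⟨k1, k2, k3⟩, -⟩ := hqK
  simp only at hq1 hq2 hq3 k1 k2 k3
  have hfm : ∀ (k : Fin r × Fin 3) (t : ℝ), t ≠ 0 → fm (γ k) 1 t = t ^ (e k + 1) * fm (γ k) t⁻¹ 1 := by
    intro k t ht
    rw [← fm_hom, mul_inv_cancel₀ ht, mul_one]
  have hsol : ∀ t, 1 / β < t → t < 1 / α → ∀ i, ∃ z' : Fin 3 → ℝ,
      OnC (fm (γ (i, 0)) (1 : ℝ) t) (fm (γ (i, 1)) (1 : ℝ) t) (fm (γ (i, 2)) (1 : ℝ) t) z' ∧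
        Near ε (z i) z' := by
    intro t ht ht' i
    obtain ⟨hθt, htm⟩ := hinv t ht ht'
    have htn : t ≠ 0 := by rintro rfl; rw [mul_zero] at hθt; exact lt_irrefl _ hθt
    obtain ⟨z', hz1, hz2⟩ := (hq1 t⁻¹ (Set.Ioo_subset_Icc_self htm)).2 i
    rw [sum_sg (fun l => fm (γ (i, l)) t⁻¹ 1)] at hz1
    refine ⟨z', ⟨ne_of_near (h3 i) fun j => (hz2 j).trans_le (min_le_right _ _), ?_⟩, ?_⟩
    · rw [← eqn_scale he γ i t t⁻¹ 1 htn, mul_inv_cancel₀ htn, mul_one] at hz1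
      exact hz1
    · exact near_one (k3 i) (fun j => (hq3.2 i j).trans_le (min_le_left _ _))
        (fun j => (hz2 j).trans_le (min_le_left _ _))
  have hsign : ∀ k, ∀ t : ℝ, 1 / β < t → t < 1 / α →
      0 < ((s k * θ ^ (e k + 1) : ℤ) : ℝ) * fm (γ k) 1 t := by
    intro k t ht ht'
    obtain ⟨hθt, htm⟩ := hinv t ht ht'
    have htn : t ≠ 0 := by rintro rfl; rw [mul_zero] at hθt; exact lt_irrefl _ hθt
    have h7 := (hq1 t⁻¹ (Set.Ioo_subset_Icc_self htm)).1 k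
    rw [hfm k t htn]
    push_cast
    have e1 : (s k : ℝ) * (θ : ℝ) ^ (e k + 1) * (t ^ (e k + 1) * fm (γ k) t⁻¹ 1)
        = ((s k : ℝ) * fm (γ k) t⁻¹ 1) * ((θ : ℝ) * t) ^ (e k + 1) := by
      rw [mul_pow]; ring
    rw [e1]
    exact mul_pos h7 (pow_pos hθt _)
  have hmid : ∃ t, 1 / β < t ∧ t < 1 / α := exists_between hθα
  obtain ⟨tm, htm1, htm2⟩ := hmid
  refine ⟨fun k => s k * θ ^ (e k + 1), SS_of (fun k => ?_) (f := fun k => fm (γ k) 1 tm)
    (fun k => hsign k tm htm1 htm2) (fun i => ?_), fun k t ht1 ht2 => hsign k t ht1 ht2,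
    fun t ht1 ht2 => ?_⟩
  · rcases hθ with rfl | rfl
    · rw [one_pow, mul_one]; exact hs k
    · rcases neg_one_pow_eq_or ℤ (e k + 1) with h | h <;> rw [h]
      · rw [mul_one]; exact hs k
      · rcases hs k with h' | h' <;> rw [h']
        · right; rfl
        · left; rfl
  · obtain ⟨z', hz', -⟩ := hsol tm htm1 htm2 i
    exact ⟨z', hz'⟩
  · refine ⟨?_, hsol t ht1 ht2⟩
    obtain ⟨hθt, htm⟩ := hinv t ht1 ht2
    have htn : t ≠ 0 := by rintro rfl; rw [mul_zero] at hθt; exact lt_irrefl _ hθt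
    have hxq : x 1 ≠ 0 := by
      have := (hq3.1 1).trans_le (min_le_right _ _)
      intro h0
      rw [h0, zero_sub, abs_neg, hx] at this
      norm_num at this
    refine ⟨x 1 * t⁻¹, mul_ne_zero hxq (inv_ne_zero htn), fun j => ?_⟩
    rw [k2, one_mul, Real.norm_eq_abs]
    fin_cases j
    · change |x 0 - x 1 * t⁻¹ * 1| ≤ ε
      have e1 : x 0 - x 1 * t⁻¹ * 1 = (x 0 - x 1 * t0) + x 1 * (t0 - t⁻¹) := by ring
      have h7 : |x 1| ≤ 1 := by
        rw [← k2, ← Real.norm_eq_abs]; exact norm_le_pi_norm x 1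
      have h8 : |x 1 * (t0 - t⁻¹)| ≤ ε / 2 := by
        rw [abs_mul, abs_sub_comm]
        calc |x 1| * |t⁻¹ - t0| ≤ 1 * |t⁻¹ - t0| := mul_le_mul_of_nonneg_right h7 (abs_nonneg _)
          _ ≤ ε / 2 := by rw [one_mul]; exact (hη t⁻¹ (Set.Ioo_subset_Icc_self htm)).le
      rw [e1]
      refine (abs_add_le _ _).trans ?_
      linarith
    · change |x 1 - x 1 * t⁻¹ * t| ≤ ε
      rw [mul_assoc, inv_mul_cancel₀ htn, mul_one, sub_self, abs_zero]
      exact hε.le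

/-- finitely many intervals for the normalised data -/
lemma cover (he : ∀ i l l', e (i, l) = e (i, l')) {ε δ : ℝ} (hε : 0 < ε) (hδ : 0 < δ) :
    ∃ Z : Finset (ℝ × ℝ), (∀ w ∈ Z, w.1 < w.2) ∧ ∀ q ∈ KS e δ, ∃ w ∈ Z, Good ε w q := by
  classical
  refine IsCompact.induction_on (p := fun S => ∃ Z : Finset (ℝ × ℝ), (∀ w ∈ Z, w.1 < w.2) ∧
    ∀ q ∈ S, ∃ w ∈ Z, Good ε w q) (compact_KS (e := e) δ) ⟨∅, by simp, by simp⟩ ?_ ?_ ?_
  · rintro S T hST ⟨Z, h1, h2⟩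
    exact ⟨Z, h1, fun q hq => h2 q (hST hq)⟩
  · rintro S T ⟨Z, h1, h2⟩ ⟨Z', h1', h2'⟩
    refine ⟨Z ∪ Z', fun w hw => ?_, fun q hq => ?_⟩
    · rcases mem_union.1 hw with h | h
      · exact h1 w h
      · exact h1' w h
    · rcases hq with h | h
      · obtain ⟨w, hw, hg⟩ := h2 q h
        exact ⟨w, mem_union_left _ hw, hg⟩
      · obtain ⟨w, hw, hg⟩ := h2' q h
        exact ⟨w, mem_union_right _ hw, hg⟩
  · intro q0 hq0
    have hex : ∃ w : ℝ × ℝ, w.1 < w.2 ∧ ∀ᶠ q in 𝓝 q0, q ∈ KS e δ → Good ε w q := by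
      obtain ⟨j, hj⟩ := exists_one hq0.1.2.1
      fin_cases j
      · exact chart1 he hε hδ hq0 hj
      · exact chart2 he hε hδ hq0 hj
    obtain ⟨w, hw, hev⟩ := hex
    refine ⟨{q | q ∈ KS e δ → Good ε w q} ∩ KS e δ, ?_, {w}, ?_, ?_⟩
    · exact Filter.inter_mem (mem_nhdsWithin_of_mem_nhds hev) self_mem_nhdsWithin
    · intro w' hw'
      rw [mem_singleton.1 hw']; exact hw
    · rintro q ⟨h1, h2⟩
      exact ⟨w, mem_singleton_self w, h1 h2⟩

lemma fmv_eq {e' : ℕ} (c : Fin (e' + 2) → ℤ) {H : ℝ} (hH : H ≠ 0) (x y : ℝ) :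
    fmv c x y = H * fm (fun j => (c j : ℝ) / H) x y := by
  unfold fmv
  rw [← fm_smul]
  congr 1
  funext j
  field_simp

lemma dr_eq {e' : ℕ} (c : Fin (e' + 2) → ℤ) {H : ℝ} (hH : H ≠ 0) (t : ℝ) :
    dr c t = H * dR (fun j => (c j : ℝ) / H) t := by
  rw [← dR_smul]
  unfold dr dR
  refine sum_congr rfl fun j _ => ?_
  field_simp

lemma ND_of {δ : ℝ} {c : (k : Fin r × Fin 3) → Fin (e k + 2) → ℤ} {H : ℝ} (hH : 0 < H)
    (h : ¬ rdeg (δ * H) c) : ND δ (fun k j => (c k j : ℝ) / H) := by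
  intro t ht
  unfold rdeg at h
  push Not at h
  obtain ⟨h1, h2⟩ := h t ht
  constructor
  · intro a b hab
    by_contra hcon
    push Not at hcon
    obtain ⟨ha, hb⟩ := max_lt_iff.1 hcon
    have := h1 a b hab (by
      rw [fmv_eq _ hH.ne', abs_mul, abs_of_pos hH, mul_comm δ]
      exact mul_le_mul_of_nonneg_left ha.le hH.le)
    rw [fmv_eq _ hH.ne', abs_mul, abs_of_pos hH, mul_comm δ] at this
    have := lt_of_mul_lt_mul_left this hH.le
    linarith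
  · intro a
    by_contra hcon
    push Not at hcon
    obtain ⟨ha, hb⟩ := max_lt_iff.1 hcon
    have := h2 a (by
      rw [fmv_eq _ hH.ne', abs_mul, abs_of_pos hH, mul_comm δ]
      exact mul_le_mul_of_nonneg_left ha.le hH.le)
    rw [dr_eq _ hH.ne', abs_mul, abs_of_pos hH, mul_comm δ] at this
    have := lt_of_mul_lt_mul_left this hH.le
    linarith

lemma near_scale {n : ℕ} {ε l : ℝ} (hl : 0 < l) {a b : Fin n → ℝ}
    (h : Near ε (fun j => a j / l) b) : Near ε a b := by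
  obtain ⟨m, hm, h1⟩ := h
  refine ⟨l * m, mul_ne_zero hl.ne' hm, fun j => ?_⟩
  have e1 : a j - l * m * b j = l * (a j / l - m * b j) := by field_simp
  have e2 : (fun j => a j / l) = l⁻¹ • a := by
    funext j; rw [Pi.smul_apply, smul_eq_mul]; field_simp
  have h2 : ‖a j / l - m * b j‖ ≤ ‖fun j => a j / l‖ * ε := h1 j
  rw [e2, norm_smul, norm_inv, Real.norm_eq_abs l, abs_of_pos hl] at h2
  rw [e1, norm_mul, Real.norm_eq_abs l, abs_of_pos hl]
  calc l * ‖a j / l - m * b j‖ ≤ l * (l⁻¹ * ‖a‖ * ε) := mul_le_mul_of_nonneg_left h2 hl.le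
    _ = ‖a‖ * ε := by field_simp

end main

/-- RDW -/
theorem rdw_ : S_RDW := by
  intro r e hr he ε δ hε hδ
  obtain ⟨Z, hZ1, hZ2⟩ := cover (e := e) he hε hδ
  refine ⟨Z, hZ1, fun H hH c hc hbad x z hX => ?_⟩
  have hH0 : (0 : ℝ) < H := by exact_mod_cast hH
  unfold rBad at hbad
  push Not at hbad
  obtain ⟨hf, hon⟩ := hX
  have hx : x ≠ 0 := by
    rintro rfl
    apply hf (⟨0, hr⟩, 0)
    exact fm_zero _
  have hxn : 0 < ‖x‖ := norm_pos_iff.2 hx
  have hzn : ∀ i, 0 < ‖z i‖ := fun i => norm_pos_iff.2 (hon i).1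
  have hcH : ∀ k j, |(c k j : ℝ)| ≤ H := by
    intro k j
    unfold BXI at hc
    rw [Fintype.mem_piFinset] at hc
    have h1 := Fintype.mem_piFinset.1 (hc k) j
    rw [mem_Icc] at h1
    have h2 : |c k j| ≤ (H : ℤ) := abs_le.2 h1
    exact_mod_cast h2
  have hnorm : ∀ {n : ℕ} {a : Fin n → ℝ}, 0 < ‖a‖ → ‖fun j => a j / ‖a‖‖ = 1 := by
    intro n a ha
    have e2 : (fun j => a j / ‖a‖) = ‖a‖⁻¹ • a := by
      funext j; rw [Pi.smul_apply, smul_eq_mul]; field_simp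
    rw [e2, norm_smul, norm_inv, norm_norm, inv_mul_cancel₀ ha.ne']
  have hq : ((fun k j => (c k j : ℝ) / H, (fun j => x j / ‖x‖), fun i j => z i j / ‖z i‖) :
      Ga e × (Fin 2 → ℝ) × (Fin r → Fin 3 → ℝ)) ∈ KS e δ := by
    refine ⟨⟨fun k j => ?_, hnorm hxn, fun i => hnorm (hzn i)⟩, fun i => ?_, ND_of hH0 hbad.1, ?_⟩
    · simp only
      rw [abs_div, abs_of_pos hH0, div_le_one hH0]
      exact hcH k j
    · unfold Eqn
      simp only
      have h1 := (hon i).2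
      have hzi := (hzn i).ne'
      have e3 : ∀ j, x j / ‖x‖ = ‖x‖⁻¹ * x j := fun j => by field_simp
      rw [e3, e3]
      refine (eqn_scale he (fun k j => (c k j : ℝ) / H) i ‖x‖⁻¹ (x 0) (x 1)
        (inv_ne_zero hxn.ne') (fun j => z i j / ‖z i‖)).2 ?_
      rw [fmv_eq _ hH0.ne', fmv_eq _ hH0.ne', fmv_eq _ hH0.ne'] at h1
      have h2 : fm (fun j => (c (i, 0) j : ℝ) / H) (x 0) (x 1) * z i 0 ^ 2
          + fm (fun j => (c (i, 1) j : ℝ) / H) (x 0) (x 1) * z i 1 ^ 2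
          = fm (fun j => (c (i, 2) j : ℝ) / H) (x 0) (x 1) * z i 2 ^ 2 := by
        apply mul_left_cancel₀ hH0.ne'
        linear_combination h1
      rw [div_pow, div_pow, div_pow]
      field_simp
      linear_combination h2
    · exact ND_of (c := fun a => rv (c a)) hH0 hbad.2
  obtain ⟨w, hw, s, hs, hsgn, hgood⟩ := hZ2 _ hq
  refine ⟨w, hw, s, hs, fun k t h1 h2 => ?_, fun t h1 h2 => ?_⟩
  · have := hsgn k t h1 h2
    rw [fmv_eq _ hH0.ne']
    have e4 : (s k : ℝ) * (H * fm (fun j => (c k j : ℝ) / H) 1 t)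
        = H * ((s k : ℝ) * fm (fun j => (c k j : ℝ) / H) 1 t) := by ring
    rw [e4]
    exact mul_pos hH0 this
  · obtain ⟨hn, hcn⟩ := hgood t h1 h2
    refine ⟨near_scale hxn hn, fun i => ?_⟩
    obtain ⟨z', ⟨hz1, hz2⟩, hz3⟩ := hcn i
    refine ⟨z', ⟨hz1, ?_⟩, near_scale (hzn i) hz3⟩
    rw [fmv_eq _ hH0.ne', fmv_eq _ hH0.ne', fmv_eq _ hH0.ne']
    linear_combination (H : ℝ) * hz2

end Pool.Agent.N832.DW
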